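import Mathlib

set_option autoImplicit false
set_option maxHeartbeats 400000

open Filter Topology

namespace Pool.Agent.H.MP_e825aa_al

section Top
variable (G X : Type) [Group G] [MulAction G X]

/-- topology of pointwise convergence on the discrete set `X` -/
@[reducible] def ptTop : TopologicalSpace G :=
  TopologicalSpace.induced (fun (g : G) (x : X) => g • x) (@Pi.topologicalSpace X (fun _ => X) fun _ => ⊥)

theorem pt_basis (g : G) : (@nhds G (ptTop G X) g).HasBasis (fun I : Set X => I.Finite)
    (fun I => {k : G | ∀ x ∈ I, k • x = g • x}) := by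
  let : TopologicalSpace X := ⊥
  have : DiscreteTopology X := ⟨rfl⟩
  rw [nhds_induced, nhds_pi]
  simp only [nhds_discrete]
  exact (Filter.hasBasis_pi_pure (fun x => g • x)).comap _

theorem pt_ev (g : G) (x : X) : ∀ᶠ k in @nhds G (ptTop G X) g, k • x = g • x :=
  (pt_basis G X g).eventually_iff.2 ⟨{x}, Set.finite_singleton x, fun _ hk => hk x rfl⟩

theorem pt_group : @IsTopologicalGroup G (ptTop G X) _ := by
  let : TopologicalSpace X := ⊥
  have : DiscreteTopology X := ⟨rfl⟩
  let : TopologicalSpace G := ptTop G X
  refine { continuous_mul := ?_, continuous_inv := ?_ }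
  · refine continuous_induced_rng.2 (continuous_pi fun x => ?_)
    rw [continuous_iff_continuousAt]
    rintro ⟨g, h⟩
    rw [ContinuousAt, nhds_discrete X, tendsto_pure, nhds_prod_eq]
    filter_upwards [(pt_ev G X g (h • x)).prod_inl _, (pt_ev G X h x).prod_inr _] with p h1 h2
    simp only [Function.comp, mul_smul]
    rw [h2, h1]
  · refine continuous_induced_rng.2 (continuous_pi fun x => ?_)
    rw [continuous_iff_continuousAt]
    intro g
    rw [ContinuousAt, nhds_discrete X, tendsto_pure]
    filter_upwards [pt_ev G X g (g⁻¹ • x)] with p h1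
    simp only [Function.comp]
    rw [smul_inv_smul] at h1
    rw [inv_smul_eq_iff, h1]

theorem pt_closure (s : Set G) (g : G) : g ∈ @closure G (ptTop G X) s ↔
    ∀ I : Set X, I.Finite → ∃ k ∈ s, ∀ x ∈ I, k • x = g • x := by
  let : TopologicalSpace G := ptTop G X
  rw [mem_closure_iff_nhds_basis (pt_basis G X g)]
  rfl

theorem pt_second [Countable X] : @SecondCountableTopology G (ptTop G X) := by
  let : TopologicalSpace X := ⊥
  have : DiscreteTopology X := ⟨rfl⟩
  let : TopologicalSpace G := ptTop G X
  exact Topology.IsInducing.secondCountableTopology (f := fun (g : G) (x : X) => g • x) ⟨rfl⟩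

end Top

section Free
open FreeGroup

abbrev F := FreeGroup ℕ

/-- indicator that the reduced word ends with the inverse of the `k`-th generator -/
def psi (k : ℕ) (u : F) : ZMod 2 := if u.toWord.getLast? = some (k, false) then 1 else 0

theorem psi_step (k i : ℕ) (u : F) :
    psi k ((of i)⁻¹ * u) = psi k u + if i = k ∧ u = 1 then 1 else 0 := by
  have e : ((of i)⁻¹ * u).toWord = reduce ((i, false) :: u.toWord) := by
    rw [toWord_mul, toWord_inv, toWord_of]; rfl
  have hr : IsReduced u.toWord := isReduced_toWord
  have h1 : u = 1 ↔ u.toWord = [] := toWord_eq_nil_iff.symm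
  simp only [psi, e, h1, reduce.cons, reduce_toWord]
  generalize u.toWord = l at hr
  rcases l with _ | ⟨⟨a, s⟩, _ | ⟨b, l⟩⟩
  · by_cases h : i = k <;> simp [h]
  · by_cases h : i = a ∧ false = !s
    · obtain ⟨rfl, h⟩ := h
      cases s <;> simp at h ⊢
    · simp only [if_neg h]; simp
  · by_cases h : i = a ∧ false = !s
    · simp only [if_pos h]; simp
    · simp only [if_neg h]; simp

/-- subgroup generated by the first `k+1` generators -/
def Fk (k : ℕ) : Subgroup F := Subgroup.closure {w | ∃ i ≤ k, w = of i}

theorem mk_mem (k : ℕ) (l : List (ℕ × Bool)) (h : ∀ x ∈ l, x.1 ≤ k) : mk l ∈ Fk k := by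
  induction l with
  | nil => exact (Fk k).one_mem
  | cons a l ih =>
    have h1 : mk [a] ∈ Fk k := by
      obtain ⟨i, s⟩ := a
      have : of i ∈ Fk k := Subgroup.subset_closure ⟨i, h (i, s) (by simp), rfl⟩
      cases s
      · exact (Fk k).inv_mem this
      · exact this
    have : mk (a :: l) = mk [a] * mk l := by rw [mul_mk]; rfl
    rw [this]
    exact (Fk k).mul_mem h1 (ih fun x hx => h x (by simp [hx]))

theorem red_mid {a b c : List (ℕ × Bool)} (h : IsReduced (a ++ (b ++ c))) : IsReduced b :=
  List.IsChain.left_of_append (List.IsChain.right_of_append h)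

theorem detect (w : F) (hw : w ≠ 1) : ∃ k, w ∈ Fk k ∧ ∃ u, psi k (w * u) ≠ psi k u := by
  have hne : w.toWord ≠ [] := fun h => hw (toWord_eq_nil_iff.1 h)
  have hr : IsReduced w.toWord := isReduced_toWord
  obtain ⟨⟨k, s⟩, hx, hmax⟩ := Finset.exists_max_image w.toWord.toFinset Prod.fst
    (by simpa using hne)
  simp only [List.mem_toFinset] at hx hmax
  refine ⟨k, by rw [← mk_toWord (x := w)]; exact mk_mem k _ hmax, ?_⟩
  obtain ⟨a, b, hab⟩ := List.append_of_mem hx
  have hw' : w = mk a * mk [(k, s)] * mk b := by
    rw [mul_mk, mul_mk, ← mk_toWord (x := w), hab]; simp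
  rw [hab] at hr
  have ha : IsReduced a := red_mid (a := []) (c := (k, s) :: b) (by simpa using hr)
  have hb : IsReduced b := red_mid (a := a ++ [(k, s)]) (c := []) (by simpa using hr)
  have ha' : IsReduced (a ++ [(k, s)]) := red_mid (a := []) (c := b) (by simpa using hr)
  have hb' : IsReduced ((k, s) :: b) := red_mid (a := a) (c := []) (by simpa using hr)
  cases s
  · refine ⟨(mk b)⁻¹, ?_⟩
    have e1 : psi k (w * (mk b)⁻¹) = 1 := by
      rw [hw', mul_inv_cancel_right, mul_mk, psi, toWord_mk, ha'.reduce_eq]; simp
    have e2 : psi k (mk b)⁻¹ = 0 := by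
      rw [psi, toWord_inv, toWord_mk, hb.reduce_eq, if_neg]
      rcases b with _ | ⟨⟨c, t⟩, b⟩
      · simp
      · have := (isReduced_cons_cons.1 hb').1
        simp only [invRev, List.map_cons, List.reverse_cons, List.getLast?_concat,
          Option.some.injEq, Prod.mk.injEq, not_and]
        rintro rfl
        have := this rfl
        simp only at this
        simp [← this]
    rw [e1, e2]; exact one_ne_zero
  · refine ⟨(mk ((k, true) :: b))⁻¹, ?_⟩
    have e0 : mk ((k, true) :: b) = mk [(k, true)] * mk b := by rw [mul_mk]; rfl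
    have e1 : psi k (w * (mk ((k, true) :: b))⁻¹) = 0 := by
      rw [hw', e0, mul_assoc (mk a), mul_inv_cancel_right, psi, toWord_mk, ha.reduce_eq, if_neg]
      intro h
      obtain ⟨a', rfl⟩ : ∃ a', a = a' ++ [(k, false)] := by
        rcases List.eq_nil_or_concat' a with rfl | ⟨a', y, rfl⟩
        · simp at h
        · simp at h; exact ⟨a', by rw [h]⟩
      have : IsReduced [(k, false), (k, true)] := 
        red_mid (a := a') (c := []) (by simpa using ha')
      simpa using (isReduced_cons_cons.1 this).1
    have e2 : psi k (mk ((k, true) :: b))⁻¹ = 1 := by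
      rw [psi, toWord_inv, toWord_mk, hb'.reduce_eq, if_pos]
      simp [invRev]
    rw [e1, e2]; exact zero_ne_one

end Free

end Pool.Agent.H.MP_e825aa_al
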