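import Mathlib
import Pool.Agent.H.MP_e825aa_al.Basic

set_option autoImplicit false
set_option maxHeartbeats 400000

open Filter Topology
open FreeGroup (of)

namespace Pool.Agent.H.MP_e825aa_al

abbrev Lam := ℕ →₀ ZMod 2
abbrev S := ℕ × F
abbrev B := S →₀ Lam
abbrev Req := S × S × B × {l : Lam // l ≠ 0}

instance : Countable F := inferInstanceAs (Countable (Quot _))

theorem lam_add_self (l : Lam) : l + l = 0 := by
  rw [← two_smul (ZMod 2) l, show (2 : ZMod 2) = 0 by decide, zero_smul]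

theorem b_add_self (f : B) : f + f = 0 := by
  ext1 s; exact lam_add_self (f s)

instance : Nonempty {l : Lam // l ≠ 0} := ⟨⟨Finsupp.single 0 1, by simp⟩⟩

noncomputable def req (k : ℕ) : Req := (exists_surjective_nat Req).choose (Nat.unpair k).1

theorem req_large (r : Req) (n : ℕ) : ∃ k, n ≤ k ∧ req k = r := by
  obtain ⟨i, hi⟩ := (exists_surjective_nat Req).choose_spec r
  exact ⟨Nat.pair i n, Nat.right_le_pair i n, by simp [req, hi]⟩

def colPerm (k : ℕ) : S ≃ S where
  toFun s := if k ≤ s.1 then (s.1, of k * s.2) else s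
  invFun s := if k ≤ s.1 then (s.1, (of k)⁻¹ * s.2) else s
  left_inv s := by by_cases h : k ≤ s.1 <;> simp [h]
  right_inv s := by by_cases h : k ≤ s.1 <;> simp [h]

noncomputable def P (k : ℕ) : B ≃ₗ[ZMod 2] B := Finsupp.domLCongr (colPerm k)

theorem P_apply (k : ℕ) (f : B) (s : S) : P k f s = f ((colPerm k).symm s) := rfl

theorem P_small (k : ℕ) (f : B) (h : ∀ s ∈ f.support, s.1 < k) : P k f = f := by
  have h0 : ∀ s : S, k ≤ s.1 → f s = 0 := fun s hs => by
    by_contra hne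
    exact absurd (h s (Finsupp.mem_support_iff.2 hne)) (by omega)
  ext1 s
  rw [P_apply]
  by_cases hs : k ≤ s.1
  · have : (colPerm k).symm s = (s.1, (of k)⁻¹ * s.2) := if_pos hs
    rw [this, h0 s hs]; exact h0 _ hs
  · have : (colPerm k).symm s = s := if_neg hs
    rw [this]

noncomputable def tv (a a' : S) : B →ₗ[ZMod 2] B :=
  LinearMap.id + (Finsupp.lsingle a').comp (Finsupp.lapply a)

theorem tv_apply (a a' : S) (f : B) : tv a a' f = f + Finsupp.single a' (f a) := rfl

theorem tv_invol (a a' : S) (h : a ≠ a') : Function.Involutive (tv a a') := by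
  intro f
  rw [tv_apply, tv_apply, Finsupp.add_apply, Finsupp.single_eq_of_ne h, add_zero, add_assoc,
    b_add_self, add_zero]

open Classical in
noncomputable def T (k : ℕ) (a a' : S) : B ≃ₗ[ZMod 2] B :=
  if h : a ≠ a' ∧ a'.1 < k then LinearEquiv.ofInvolutive (tv a a') (tv_invol a a' h.1) else 1

theorem T_pos (k : ℕ) (a a' : S) (h : a ≠ a' ∧ a'.1 < k) (f : B) :
    T k a a' f = f + Finsupp.single a' (f a) := by
  rw [T, dif_pos h]; rfl

theorem T_neg (k : ℕ) (a a' : S) (h : ¬ (a ≠ a' ∧ a'.1 < k)) (f : B) : T k a a' f = f := by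
  rw [T, dif_neg h]; rfl

theorem T_col (k : ℕ) (a a' : S) (f : B) (s : S) (hs : k ≤ s.1) : T k a a' f s = f s := by
  by_cases h : a ≠ a' ∧ a'.1 < k
  · rw [T_pos k a a' h, Finsupp.add_apply, Finsupp.single_eq_of_ne, add_zero]
    rintro rfl; omega
  · rw [T_neg k a a' h]

noncomputable def L : F →* (B ≃ₗ[ZMod 2] B) :=
  FreeGroup.lift fun k => P k * T k (req k).1 (req k).2.1

theorem L_of (k : ℕ) (f : B) : L (of k) f = P k (T k (req k).1 (req k).2.1 f) := by
  rw [L, FreeGroup.lift_apply_of]; rfl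

theorem L_mul (v w : F) (f : B) : L (v * w) f = L v (L w f) := by rw [map_mul]; rfl
theorem L_one (f : B) : L 1 f = f := by rw [map_one]; rfl
theorem L_inv (w : F) (f : B) : L w (L w⁻¹ f) = f := by rw [← L_mul, mul_inv_cancel, L_one]
theorem L_inv' (w : F) (f : B) : L w⁻¹ (L w f) = f := by rw [← L_mul, inv_mul_cancel, L_one]

theorem L_col (k : ℕ) (w : F) (hw : w ∈ Fk k) : ∀ (f : B) (u : F),
    L w f (k, u) = f (k, w⁻¹ * u) := by
  induction hw using Subgroup.closure_induction with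
  | mem x hx =>
    obtain ⟨i, hi, rfl⟩ := hx
    intro f u
    have : (colPerm i).symm (k, u) = (k, (of i)⁻¹ * u) := if_pos hi
    rw [L_of, P_apply, this, T_col _ _ _ _ _ hi]
  | one => intro f u; rw [L_one]; simp
  | mul x y _ _ hx hy => intro f u; rw [L_mul, hx, hy, mul_inv_rev, mul_assoc]
  | inv x _ hx =>
    intro f u
    have := hx (L x⁻¹ f) (x * u)
    rw [L_inv, inv_mul_cancel_left] at this
    rw [inv_inv, this]

theorem L_inj (w : F) (h : ∀ f, L w f = f) : w = 1 := by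
  by_contra hw
  obtain ⟨k, hk, -⟩ := detect w hw
  have := L_col k w hk (Finsupp.single (k, 1) (Finsupp.single 0 1)) w
  rw [h, inv_mul_cancel, Finsupp.single_eq_same, Finsupp.single_eq_of_ne (by simpa using hw)] at this
  simpa using this.symm

@[ext] structure G where
  b : B
  w : F

noncomputable instance : Group G where
  mul g h := ⟨g.b + L g.w h.b, g.w * h.w⟩
  one := ⟨0, 1⟩
  inv g := ⟨L g.w⁻¹ g.b, g.w⁻¹⟩
  mul_assoc g h k := by
    refine G.ext ?_ (mul_assoc _ _ _)
    change g.b + L g.w h.b + L (g.w * h.w) k.b = g.b + L g.w (h.b + L h.w k.b)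
    rw [L_mul, map_add, add_assoc]
  one_mul g := by
    refine G.ext ?_ (one_mul _)
    change 0 + L 1 g.b = g.b
    rw [L_one, zero_add]
  mul_one g := by
    refine G.ext ?_ (mul_one _)
    change g.b + L g.w 0 = g.b
    rw [map_zero, add_zero]
  inv_mul_cancel g := by
    refine G.ext ?_ (inv_mul_cancel _)
    exact b_add_self _

theorem mul_b (g h : G) : (g * h).b = g.b + L g.w h.b := rfl
theorem mul_w (g h : G) : (g * h).w = g.w * h.w := rfl
theorem one_b : (1 : G).b = 0 := rfl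
theorem one_w : (1 : G).w = 1 := rfl
theorem inv_b (g : G) : (g⁻¹).b = L g.w⁻¹ g.b := rfl
theorem inv_w (g : G) : (g⁻¹).w = g.w⁻¹ := rfl

noncomputable instance : MulAction G B where
  smul g f := g.b + L g.w f
  one_smul f := by
    change 0 + L 1 f = f
    rw [L_one, zero_add]
  mul_smul g h f := by
    change g.b + L g.w h.b + L (g.w * h.w) f = g.b + L g.w (h.b + L h.w f)
    rw [L_mul, map_add, add_assoc]

theorem smul_def (g : G) (f : B) : g • f = g.b + L g.w f := rfl

noncomputable def bk (k : ℕ) : B :=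
  (req k).2.2.1.filter (fun s => s.1 < k) + Finsupp.single (k, 1) (req k).2.2.2.1

noncomputable def A : F →* G := FreeGroup.lift fun k => ⟨bk k, of k⟩

theorem A_of (k : ℕ) : A (of k) = ⟨bk k, of k⟩ := by rw [A, FreeGroup.lift_apply_of]

theorem A_w (w : F) : (A w).w = w := by
  induction w using FreeGroup.induction_on with
  | C1 => rw [map_one]; rfl
  | of k => rw [A_of]
  | inv_of k h => rw [map_inv, inv_w, h]
  | mul x y hx hy => rw [map_mul, mul_w, hx, hy]

theorem c_col (k : ℕ) (w : F) (hw : w ∈ Fk k) : ∀ u : F,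
    (A w).b (k, u) = (psi k (w⁻¹ * u) - psi k u) • (req k).2.2.2.1 := by
  induction hw using Subgroup.closure_induction with
  | mem x hx =>
    obtain ⟨i, hi, rfl⟩ := hx
    intro u
    rw [A_of, psi_step, add_sub_cancel_left]
    simp only [bk, Finsupp.add_apply]
    rw [Finsupp.filter_apply_neg _ _ (by simpa using hi), zero_add]
    by_cases h : i = k ∧ u = 1
    · obtain ⟨rfl, rfl⟩ := h
      simp
    · rw [if_neg h, zero_smul, Finsupp.single_eq_of_ne]
      intro e
      simp only [Prod.mk.injEq] at e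
      exact h ⟨e.1.symm, e.2⟩
  | one => intro u; rw [map_one, one_b]; simp
  | mul x y hx' _ hx hy =>
    intro u
    rw [map_mul, mul_b, Finsupp.add_apply, A_w, L_col k x hx', hx, hy, ← add_smul, mul_inv_rev,
      mul_assoc]
    congr 1; ring
  | inv x hx' hx =>
    intro u
    rw [map_inv, inv_b, A_w, L_col k _ ((Fk k).inv_mem hx'), hx, inv_inv,
      inv_mul_cancel_left]
    congr 1
    generalize psi k u = a
    generalize psi k (x * u) = b
    revert a b; decide

theorem c_inj (w : F) (h : (A w).b = 0) : w = 1 := by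
  by_contra hw
  obtain ⟨k, hk, u, hu⟩ := detect w⁻¹ (by simpa using hw)
  have := c_col k w ((Fk k).inv_mem_iff.1 hk) u
  rw [h, Finsupp.zero_apply, eq_comm, smul_eq_zero] at this
  rcases this with h1 | h1
  · exact hu (sub_eq_zero.1 h1)
  · exact (req k).2.2.2.2 h1

theorem c_inj' (v w : F) (h : (A v).b = (A w).b) : v = w := by
  have := c_inj (v⁻¹ * w) (by
    rw [map_mul, map_inv, mul_b, inv_b, inv_w, h, b_add_self])
  exact (inv_mul_eq_one.1 this)

theorem bound (I : Set B) (hI : I.Finite) : ∃ n, ∀ f ∈ I, ∀ s ∈ f.support, s.1 < n := by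
  have : (⋃ f ∈ I, Prod.fst '' (f.support : Set S)).Finite :=
    hI.biUnion fun f _ => f.support.finite_toSet.image _
  obtain ⟨n, hn⟩ := this.bddAbove
  refine ⟨n + 1, fun f hf s hs => Nat.lt_succ_of_le (hn ?_)⟩
  exact Set.mem_biUnion hf ⟨s, hs, rfl⟩

theorem gen_ne (V : AddSubmonoid B) (hV : ∀ w f, f ∈ V → L w f ∈ V) (f : B) (hf : f ∈ V)
    (a a' : S) (h : a ≠ a') : Finsupp.single a' (f a) ∈ V := by
  obtain ⟨n, hn⟩ := bound {f, Finsupp.single a' (f a)} (Set.toFinite _)
  obtain ⟨k, hk, hr⟩ := req_large (a, a', 0, Classical.arbitrary _) (max n (a'.1 + 1))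
  have h1 := hV (of k) f hf
  have hk1 : n ≤ k := le_of_max_le_left hk
  have hk2 : a'.1 + 1 ≤ k := le_of_max_le_right hk
  rw [L_of, hr, T_pos k a a' ⟨h, hk2⟩, map_add,
    P_small k f (fun s hs => (hn f (by simp) s hs).trans_le hk1),
    P_small k _ (fun s hs => (hn _ (by simp) s hs).trans_le hk1)] at h1
  have := V.add_mem hf h1
  rwa [← add_assoc, b_add_self, zero_add] at this

theorem gen (V : AddSubmonoid B) (hV : ∀ w f, f ∈ V → L w f ∈ V) (f : B) (hf : f ∈ V)
    (a a' : S) : Finsupp.single a' (f a) ∈ V := by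
  by_cases h : a = a'
  · subst h
    have h1 : a ≠ (a.1 + 1, 1) := fun e => by have := congrArg Prod.fst e; simp at this
    have := gen_ne V hV _ (gen_ne V hV f hf a _ h1) _ a h1.symm
    simpa using this
  · exact gen_ne V hV f hf a a' h

/-- translations lying in a subgroup -/
def trans (K : Subgroup G) : AddSubmonoid B where
  carrier := {f | (⟨f, 1⟩ : G) ∈ K}
  zero_mem' := K.one_mem
  add_mem' {f g} hf hg := by
    have := K.mul_mem hf hg
    have e : (⟨f, 1⟩ : G) * ⟨g, 1⟩ = ⟨f + g, 1⟩ := G.ext (by rw [mul_b, L_one]) (mul_one _)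
    rwa [e] at this

theorem conj_tr (g : G) (f : B) : g * ⟨f, 1⟩ * g⁻¹ = ⟨L g.w f, 1⟩ := by
  refine G.ext ?_ ?_
  · simp only [mul_b, mul_w, inv_b, mul_one, L_inv]
    rw [add_right_comm, b_add_self, zero_add]
  · simp [mul_w, inv_w]

noncomputable instance : TopologicalSpace G := ptTop G B
instance : IsTopologicalGroup G := pt_group G B
instance : SecondCountableTopology G := pt_second G B
instance : Countable G := by
  have : Function.Injective (fun g : G => (g.b, g.w)) := fun g h e => by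
    simp only [Prod.mk.injEq] at e; exact G.ext e.1 e.2
  exact this.countable

theorem mem_of_closed (K : Set G) (hK : IsClosed K) (g : G)
    (h : ∀ I : Set B, I.Finite → ∃ k ∈ K, ∀ x ∈ I, k • x = g • x) : g ∈ K := by
  rw [← hK.closure_eq]; exact (pt_closure G B K g).2 h

theorem closed_of (K : Set G)
    (h : ∀ g : G, (∀ f : B, ∃ k ∈ K, k.b = g.b ∧ L k.w f = L g.w f) → g ∈ K) : IsClosed K := by
  rw [← closure_subset_iff_isClosed]
  intro g hg
  refine h g fun f => ?_
  obtain ⟨k, hk, h1⟩ := (pt_closure G B K g).1 hg {0, f} (Set.toFinite _)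
  have h2 := h1 0 (by simp)
  have h3 := h1 f (by simp)
  simp only [smul_def, map_zero, add_zero] at h2 h3
  rw [h2] at h3
  exact ⟨k, hk, h2, add_left_cancel h3⟩

noncomputable def HH : Subgroup G := A.range

theorem H_closed : IsClosed (HH : Set G) := by
  refine closed_of _ fun g hg => ?_
  obtain ⟨_, ⟨v, rfl⟩, hv, -⟩ := hg 0
  have : g.w⁻¹ * v = 1 := by
    refine L_inj _ fun f => ?_
    obtain ⟨_, ⟨v', rfl⟩, hv', h⟩ := hg f
    have e : v' = v := c_inj' _ _ (hv'.trans hv.symm)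
    rw [e, A_w] at h
    rw [L_mul, h, L_inv']
  exact ⟨v, G.ext hv (by rw [A_w]; exact (inv_mul_eq_one.1 this).symm)⟩

theorem tr_mem_H (f : B) (h : (⟨f, 1⟩ : G) ∈ HH) : f = 0 := by
  obtain ⟨v, hv⟩ := h
  have h1 : v = 1 := by rw [← A_w v, hv]
  rw [h1, map_one] at hv
  exact (congrArg G.b hv).symm

theorem H_ne_top : HH ≠ ⊤ := by
  intro h
  have := tr_mem_H (Finsupp.single (0, 1) (Finsupp.single 0 1)) (by rw [h]; trivial)
  simp at this

theorem decomp (g : G) : g = ⟨g.b + (A g.w).b, 1⟩ * A g.w := by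
  refine G.ext ?_ ?_
  · rw [mul_b, L_one, add_assoc, b_add_self, add_zero]
  · rw [mul_w, A_w]; simp

theorem H_core : HH.normalCore = ⊥ := by
  rw [eq_bot_iff]
  intro g hg
  have hg' : g ∈ HH := HH.normalCore_le hg
  have hw : g.w = 1 := by
    refine L_inj _ fun f => ?_
    have h1 : (⟨f, 1⟩ : G) * g * (⟨f, 1⟩ : G)⁻¹ ∈ HH := hg _
    have h2 := HH.mul_mem h1 (HH.inv_mem hg')
    have e : (⟨f, 1⟩ : G) * g * (⟨f, 1⟩ : G)⁻¹ * g⁻¹ = ⟨f + L g.w f, 1⟩ := by
      refine G.ext ?_ ?_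
      · simp only [mul_b, mul_w, inv_b, inv_w, mul_one, one_mul, inv_one, L_inv, L_one]
        rw [add_comm f, add_right_comm, add_right_comm g.b f, b_add_self, zero_add]
      · simp [mul_w, inv_w]
    rw [e] at h2
    have h3 := congrArg (fun x => f + x) (tr_mem_H _ h2)
    simp only [add_zero] at h3
    rwa [← add_assoc, b_add_self, zero_add] at h3
  have : g = ⟨g.b, 1⟩ := G.ext rfl hw
  rw [this] at hg'
  rw [Subgroup.mem_bot, this, tr_mem_H _ hg']
  rfl

theorem H_max (K : Subgroup G) (hK : IsClosed (K : Set G)) (hH : HH ≤ K) : K = HH ∨ K = ⊤ := by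
  by_cases h : K ≤ HH
  · exact Or.inl (le_antisymm h hH)
  right
  obtain ⟨g, hgK, hgH⟩ := SetLike.not_le_iff_exists.1 h
  have hA : ∀ w, A w ∈ K := fun w => hH ⟨w, rfl⟩
  have h1 : g.b + (A g.w).b ∈ trans K := by
    have := K.mul_mem hgK (K.inv_mem (hA g.w))
    have e : g * (A g.w)⁻¹ = ⟨g.b + (A g.w).b, 1⟩ := mul_inv_eq_of_eq_mul (decomp g)
    rwa [e] at this
  have h2 : g.b + (A g.w).b ≠ 0 := by
    intro e
    apply hgH
    rw [decomp g, e]
    exact HH.mul_mem HH.one_mem ⟨_, rfl⟩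
  obtain ⟨a, ha⟩ := Finsupp.ne_iff.1 h2
  have hV : ∀ w f, f ∈ trans K → L w f ∈ trans K := by
    intro w f hf
    have := K.mul_mem (K.mul_mem (hA w) hf) (K.inv_mem (hA w))
    rwa [conj_tr, A_w] at this
  have h3 := gen _ hV _ h1 a
  have h4 : ∀ f : B, (⟨f, 1⟩ : G) ∈ K := by
    intro f
    refine mem_of_closed _ hK _ fun I hI => ?_
    obtain ⟨n, hn⟩ := bound (insert f I) (hI.insert f)
    obtain ⟨k, hk, hr⟩ := req_large (a, a, f, ⟨_, ha⟩) n
    refine ⟨_, K.mul_mem (h3 (k, 1)) (hA (of k)), fun x hx => ?_⟩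
    rw [mul_smul, A_of]
    simp only [smul_def, L_one]
    rw [L_of, hr, T_neg _ _ _ (by simp),
      P_small k x (fun s hs => (hn x (by simp [hx]) s hs).trans_le hk), bk, hr]
    simp only []
    rw [(Finsupp.filter_eq_self_iff _ _).2 (fun s hs =>
      (hn f (by simp) s (Finsupp.mem_support_iff.2 hs)).trans_le hk)]
    rw [add_comm f, ← add_assoc, ← add_assoc, b_add_self, zero_add]
  rw [eq_top_iff]
  intro x _
  rw [decomp x]
  exact K.mul_mem (h4 _) (hA _)

/-- all values are `0` or `l` -/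
def Vl (l : Lam) (f : B) : Prop := ∀ s, f s = 0 ∨ f s = l

theorem Vl_add (l : Lam) (f g : B) (hf : Vl l f) (hg : Vl l g) : Vl l (f + g) := by
  intro s
  rw [Finsupp.add_apply]
  rcases hf s with h | h <;> rcases hg s with h' | h' <;> simp [h, h', lam_add_self]

theorem Vl_single (l : Lam) (a : S) (x : Lam) (h : x = 0 ∨ x = l) : Vl l (Finsupp.single a x) := by
  intro s
  by_cases e : s = a
  · rw [e, Finsupp.single_eq_same]; exact h
  · rw [Finsupp.single_eq_of_ne e]; exact Or.inl rfl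

theorem Vl_T (l : Lam) (k : ℕ) (a a' : S) (f : B) : Vl l (T k a a' f) ↔ Vl l f := by
  by_cases h : a ≠ a' ∧ a'.1 < k
  · have h1 : ∀ f, Vl l f → Vl l (T k a a' f) := fun f hf => by
      rw [T_pos k a a' h]; exact Vl_add _ _ _ hf (Vl_single _ _ _ (hf a))
    refine ⟨fun hf => ?_, h1 f⟩
    have := h1 _ hf
    rwa [T_pos k a a' h, T_pos k a a' h, ← tv_apply, ← tv_apply, tv_invol a a' h.1] at this
  · rw [T_neg k a a' h]

theorem Vl_L (l : Lam) (w : F) : ∀ f : B, Vl l (L w f) ↔ Vl l f := by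
  induction w using FreeGroup.induction_on with
  | C1 => intro f; rw [L_one]
  | of k =>
    intro f
    rw [L_of, ← Vl_T l k (req k).1 (req k).2.1 f]
    exact ⟨fun h s => by simpa [P_apply] using h (colPerm k s), fun h s => h _⟩
  | inv_of k h => intro f; rw [← h, L_inv]
  | mul x y hx hy => intro f; rw [L_mul, hx, hy]

def M (l : Lam) : Subgroup G where
  carrier := {g | g.w = 1 ∧ Vl l g.b}
  one_mem' := ⟨rfl, fun _ => Or.inl rfl⟩
  mul_mem' {g h} hg hh := ⟨by rw [mul_w, hg.1, hh.1, mul_one], by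
    rw [mul_b]; exact Vl_add _ _ _ hg.2 ((Vl_L _ _ _).2 hh.2)⟩
  inv_mem' {g} hg := ⟨by rw [inv_w, hg.1, inv_one], by
    rw [inv_b]; exact (Vl_L _ _ _).2 hg.2⟩

theorem M_normal (l : Lam) : (M l).Normal := ⟨fun n hn g => by
  have : n = ⟨n.b, 1⟩ := G.ext rfl hn.1
  rw [this, conj_tr]
  exact ⟨rfl, (Vl_L _ _ _).2 hn.2⟩⟩

theorem M_closed (l : Lam) : IsClosed (M l : Set G) := by
  refine closed_of _ fun g hg => ⟨L_inj _ fun f => ?_, ?_⟩
  · obtain ⟨k, hk, -, h⟩ := hg f
    rw [← h, hk.1, L_one]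
  · obtain ⟨k, hk, h, -⟩ := hg 0
    rw [← h]; exact hk.2

theorem single_mem_M (l : Lam) : (⟨Finsupp.single (0, 1) l, 1⟩ : G) ∈ M l :=
  ⟨rfl, Vl_single _ _ _ (Or.inr rfl)⟩

theorem M_ne_bot (l : Lam) (hl : l ≠ 0) : M l ≠ ⊥ := by
  intro h
  have := single_mem_M l
  rw [h, Subgroup.mem_bot] at this
  have := congrArg G.b this
  simp [one_b, hl] at this

theorem M_min (l : Lam) (N : Subgroup G) (hN : N.Normal) (hle : N ≤ M l) : N = ⊥ ∨ N = M l := by
  by_cases h : N = ⊥
  · exact Or.inl h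
  right
  obtain ⟨⟨g, hg⟩, hg1⟩ := Subgroup.ne_bot_iff_exists_ne_one.1 h
  have hg' : g = ⟨g.b, 1⟩ := G.ext rfl (hle hg).1
  have h2 : g.b ≠ 0 := by
    intro e
    apply hg1
    apply Subtype.ext
    exact G.ext e (hle hg).1
  obtain ⟨a, ha⟩ := Finsupp.ne_iff.1 h2
  have hV : ∀ w f, f ∈ trans N → L w f ∈ trans N := by
    intro w f hf
    have := hN.conj_mem _ hf (A w)
    rwa [conj_tr, A_w] at this
  have h3 := gen _ hV g.b (by rw [hg'] at hg; exact hg) a
  rw [((hle hg).2 a).resolve_left ha] at h3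
  refine le_antisymm hle fun x hx => ?_
  have hx' : x = ⟨x.b, 1⟩ := G.ext rfl hx.1
  have : x.b ∈ trans N := by
    rw [← Finsupp.sum_single x.b]
    refine AddSubmonoid.sum_mem _ fun s _ => ?_
    rcases hx.2 s with e | e
    · rw [e, Finsupp.single_zero]; exact AddSubmonoid.zero_mem _
    · rw [e]; exact h3 s
  rw [hx']; exact this

theorem M_comm (l l' : Lam) (g h : G) (hg : g ∈ M l) (hh : h ∈ M l') : g * h = h * g := by
  refine G.ext ?_ ?_
  · rw [mul_b, mul_b, hg.1, hh.1, L_one, L_one, add_comm]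
  · rw [mul_w, mul_w, hg.1, hh.1]

theorem M_inf (l l' : Lam) (h : l ≠ l') : M l ⊓ M l' = ⊥ := by
  rw [eq_bot_iff]
  rintro g ⟨h1, h2⟩
  refine G.ext ?_ h1.1
  ext1 s
  rcases h1.2 s with e | e
  · exact e
  · rcases h2.2 s with e' | e'
    · exact e'
    · exact absurd (e.symm.trans e') h

instance : T2Space G := by
  rw [IsTopologicalGroup.t2Space_iff_one_closed]
  have := M_closed 0
  have e : (M 0 : Set G) = {1} := by
    ext g
    constructor
    · rintro ⟨h1, h2⟩
      exact G.ext (by ext1 s; exact (h2 s).elim id id) h1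
    · rintro rfl; exact (M 0).one_mem
  rwa [e] at this

end Pool.Agent.H.MP_e825aa_al
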